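import Mathlib
import Pool.Agent.H159.MinC.Fin

/-!
# MP_86f1d3_an: rank one certificates on pseudohyperbolic discs of radius `1/√2`

On the disc `(1/√2) 𝔻` every complete Pick kernel `s` with `𝔟 = (1-h) s` (no holomorphy assumed)
dominates `1/(1 - 2 z w̄)`, i.e. `s (1 - 2 z w̄)` is a kernel. By Möbius invariance of the Bergman
kernel, every such `s` on the pseudohyperbolic disc `D_a` with centre `a` and radius `1/√2` dominates
`1/(1 - G(z) G(w)*)`, where `G` is the Riemann map of `D_a` with `G(0) = 0`.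
-/

set_option autoImplicit false

namespace Pool.Agent.Results.MP_86f1d3_an.PseudohyperbolicDiscs

open scoped ComplexConjugate ComplexOrder BigOperators

/-- `K` is a kernel on `X`: all the matrices `[K(z_i, z_j)]`, `z_i ∈ X`, are positive semidefinite. -/
def IsKernelOn (X : Set ℂ) (K : ℂ → ℂ → ℂ) : Prop :=
  ∀ (n : ℕ) (z : Fin n → ℂ), (∀ i, z i ∈ X) → (Matrix.of fun i j => K (z i) (z j)).PosSemidef

/-- `s` is a complete Pick kernel on `X` without zeros, described by the theorem of McCullough,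
Quiggin, Agler and McCarthy: `s(z,w) = δ(z) δ(w)* / (1 - F(z,w))` with `δ` nowhere zero and `F` a
kernel on `X` with `F(z,z) < 1`. -/
def IsCPKernelOn (X : Set ℂ) (s : ℂ → ℂ → ℂ) : Prop :=
  IsKernelOn X s ∧ (∀ z ∈ X, ∀ w ∈ X, s z w ≠ 0) ∧
    ∃ (δ : ℂ → ℂ) (F : ℂ → ℂ → ℂ), (∀ z ∈ X, δ z ≠ 0) ∧ IsKernelOn X F ∧
      (∀ z ∈ X, F z z < 1) ∧ ∀ z ∈ X, ∀ w ∈ X, s z w = δ z * conj (δ w) / (1 - F z w)

/-- `s` is a strong Shimorin certificate for `(k, l)` on `X`: a complete Pick kernel with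
`k = (1 - h) s` and `l = s g` for kernels `h`, `g` on `X`. -/
def IsStrongCertificate (X : Set ℂ) (k l s : ℂ → ℂ → ℂ) : Prop :=
  IsCPKernelOn X s ∧ ∃ h g : ℂ → ℂ → ℂ, IsKernelOn X h ∧ IsKernelOn X g ∧
    (∀ z ∈ X, ∀ w ∈ X, k z w = (1 - h z w) * s z w) ∧ ∀ z ∈ X, ∀ w ∈ X, l z w = s z w * g z w

/-- The Bergman kernel of the unit disc. -/
noncomputable def bergman (z w : ℂ) : ℂ := 1 / (1 - z * conj w) ^ 2

/-- The pseudohyperbolic disc with centre `a` and radius `1/√2`. -/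
def pseudoDisc (a : ℂ) : Set ℂ :=
  {z : ℂ | ‖z‖ < 1 ∧ ‖(z - a) / (1 - conj a * z)‖ < 1 / Real.sqrt 2}

/-! ### Proof -/

open Pool.Agent.H159.MinC (Om kernel_norm kernel_rankOne kernel_x kernel_szego kernel_const)

/-- the copy of `IsKernelOn` in the helper file -/
abbrev KO (X : Set ℂ) (K : ℂ → ℂ → ℂ) : Prop := Pool.Agent.H159.MinC.IsKernelOn X K


lemma comp {X Y : Set ℂ} {K : ℂ → ℂ → ℂ} (h : KO X K) (f : ℂ → ℂ)
    (hf : ∀ z ∈ Y, f z ∈ X) : KO Y fun z w => K (f z) (f w) := fun n z hz =>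
  h n (fun i => f (z i)) fun i => hf _ (hz i)

lemma mem_Om {z : ℂ} : z ∈ Om ↔ ‖z‖ < 1 / Real.sqrt 2 := by
  change ‖z‖ ^ 2 < 1 / 2 ↔ _
  rw [show 1 / Real.sqrt 2 = Real.sqrt (1 / 2) by
      rw [Real.sqrt_div zero_le_one, Real.sqrt_one], Real.lt_sqrt (norm_nonneg z)]

section mobius

variable {a : ℂ}

lemma ne_of_norm_lt {x : ℂ} (h : ‖x‖ < 1) : 1 - x ≠ 0 := by
  intro h0
  rw [← sub_eq_zero.1 h0, norm_one] at h
  exact lt_irrefl _ h

lemma ne_of_norm_lt' {x : ℂ} (h : ‖x‖ < 1) : 1 + x ≠ 0 := by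
  have := ne_of_norm_lt (x := -x) (by rwa [norm_neg])
  rwa [sub_neg_eq_add] at this

lemma norm_mul_lt {x y : ℂ} (hx : ‖x‖ < 1) (hy : ‖y‖ < 1) : ‖x * y‖ < 1 := by
  rw [norm_mul]; nlinarith [norm_nonneg x, norm_nonneg y]

/-- the Möbius map -/
noncomputable def ph (a z : ℂ) : ℂ := (z - a) / (1 - conj a * z)

/-- its inverse -/
noncomputable def ps (a z : ℂ) : ℂ := (z + a) / (1 + conj a * z)

lemma Om_lt {z : ℂ} (hz : z ∈ Om) : ‖z‖ < 1 := by
  have : ‖z‖ ^ 2 < 1 / 2 := hz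
  nlinarith [norm_nonneg z]

lemma ph_ps (ha : ‖a‖ < 1) {z : ℂ} (hz : ‖z‖ < 1) : ph a (ps a z) = z := by
  have n1 : 1 + conj a * z ≠ 0 := ne_of_norm_lt' (norm_mul_lt (by rwa [RCLike.norm_conj]) hz)
  have n2 : 1 - conj a * a ≠ 0 := ne_of_norm_lt (norm_mul_lt (by rwa [RCLike.norm_conj]) ha)
  have n1' : 1 + z * conj a ≠ 0 := by rwa [mul_comm z]
  have n2' : 1 - a * conj a ≠ 0 := by rwa [mul_comm a]
  rw [ph, ps]
  have e : 1 - conj a * ((z + a) / (1 + conj a * z)) = (1 - conj a * a) / (1 + conj a * z) := by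
    field_simp; ring
  rw [e]
  field_simp
  ring

lemma one_sub_ps (ha : ‖a‖ < 1) {z w : ℂ} (hz : ‖z‖ < 1) (hw : ‖w‖ < 1) :
    1 - ps a z * conj (ps a w) =
      (1 - conj a * a) * (1 - z * conj w) / ((1 + conj a * z) * (1 + a * conj w)) := by
  have n1 : 1 + conj a * z ≠ 0 := ne_of_norm_lt' (norm_mul_lt (by rwa [RCLike.norm_conj]) hz)
  have n2 : 1 + a * conj w ≠ 0 := ne_of_norm_lt' (norm_mul_lt ha (by rwa [RCLike.norm_conj]))
  have n1' : 1 + z * conj a ≠ 0 := by rwa [mul_comm z]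
  have n2' : 1 + conj w * a ≠ 0 := by rwa [mul_comm (conj w)]
  rw [ps, ps]
  simp only [map_div₀, map_add, map_mul, map_one, Complex.conj_conj]
  field_simp
  ring

lemma one_sub_ph (ha : ‖a‖ < 1) {z w : ℂ} (hz : ‖z‖ < 1) (hw : ‖w‖ < 1) :
    1 - ph a z * conj (ph a w) =
      (1 - conj a * a) * (1 - z * conj w) / ((1 - conj a * z) * (1 - a * conj w)) := by
  have n1 : 1 - conj a * z ≠ 0 := ne_of_norm_lt (norm_mul_lt (by rwa [RCLike.norm_conj]) hz)
  have n2 : 1 - a * conj w ≠ 0 := ne_of_norm_lt (norm_mul_lt ha (by rwa [RCLike.norm_conj]))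
  have n1' : 1 - z * conj a ≠ 0 := by rwa [mul_comm z]
  have n2' : 1 - conj w * a ≠ 0 := by rwa [mul_comm (conj w)]
  rw [ph, ph]
  simp only [map_div₀, map_sub, map_mul, map_one, Complex.conj_conj]
  field_simp
  ring

lemma ps_norm (ha : ‖a‖ < 1) {z : ℂ} (hz : ‖z‖ < 1) : ‖ps a z‖ < 1 := by
  have e := one_sub_ps ha hz hz
  have n1 : 1 + conj a * z ≠ 0 := ne_of_norm_lt' (norm_mul_lt (by rwa [RCLike.norm_conj]) hz)
  have e1 : (1 + conj a * z) * (1 + a * conj z) = ((‖1 + conj a * z‖ ^ 2 : ℝ) : ℂ) := by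
    rw [← Complex.normSq_eq_norm_sq, ← Complex.mul_conj]
    simp
  have e2 : ps a z * conj (ps a z) = ((‖ps a z‖ ^ 2 : ℝ) : ℂ) := by
    rw [← Complex.normSq_eq_norm_sq, ← Complex.mul_conj]
  have e3 : z * conj z = ((‖z‖ ^ 2 : ℝ) : ℂ) := by
    rw [← Complex.normSq_eq_norm_sq, ← Complex.mul_conj]
  have e4 : conj a * a = ((‖a‖ ^ 2 : ℝ) : ℂ) := by
    rw [mul_comm, ← Complex.normSq_eq_norm_sq, ← Complex.mul_conj]
  rw [e1, e2, e3, e4] at e
  have e5 : (1 : ℝ) - ‖ps a z‖ ^ 2 = (1 - ‖a‖ ^ 2) * (1 - ‖z‖ ^ 2) / ‖1 + conj a * z‖ ^ 2 := by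
    exact_mod_cast e
  have h1 : 0 < (1 - ‖a‖ ^ 2) * (1 - ‖z‖ ^ 2) / ‖1 + conj a * z‖ ^ 2 := by
    have h2 : 0 < ‖1 + conj a * z‖ := norm_pos_iff.2 n1
    have h3 : 0 < 1 - ‖a‖ ^ 2 := by nlinarith [norm_nonneg a]
    have h4 : 0 < 1 - ‖z‖ ^ 2 := by nlinarith [norm_nonneg z]
    positivity
  rw [← e5] at h1
  nlinarith [norm_nonneg (ps a z)]

lemma ps_mem (ha : ‖a‖ < 1) {z : ℂ} (hz : z ∈ Om) : ps a z ∈ pseudoDisc a := by
  refine ⟨ps_norm ha (Om_lt hz), ?_⟩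
  have := ph_ps ha (Om_lt hz)
  rw [ph] at this
  rw [this]
  exact mem_Om.1 hz

lemma ph_mem {z : ℂ} (hz : z ∈ pseudoDisc a) : ph a z ∈ Om := mem_Om.2 hz.2

end mobius

/-- On the pseudohyperbolic disc `Ω` of radius `1/√2` with centre `a`, `|a| < 1/√2` (so that `Ω` is a
disc with `0 ∈ Ω ⊆ 𝔻`), for every kernel `l` on `Ω`, holomorphic or not: if `(𝔟, l)` has a strong
Shimorin certificate on `Ω`, then it has a rank one certificate. -/
theorem result (a : ℂ) (ha : ‖a‖ < 1 / Real.sqrt 2) (l : ℂ → ℂ → ℂ)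
    (hcert : ∃ s : ℂ → ℂ → ℂ, IsStrongCertificate (pseudoDisc a) bergman l s) :
    ∃ G : ℂ → ℂ, (∀ z ∈ pseudoDisc a, ‖G z‖ < 1) ∧
      IsStrongCertificate (pseudoDisc a) bergman l fun z w => 1 / (1 - G z * conj (G w)) := by
  obtain ⟨s, ⟨hsk, hsne, δ, F, hδ, hF, hF1, hsF⟩, h, g, hh, hg, hfac, hl⟩ := hcert
  have hsk : KO (pseudoDisc a) s := hsk
  have hF : KO (pseudoDisc a) F := hF
  have hh : KO (pseudoDisc a) h := hh
  have hg : KO (pseudoDisc a) g := hg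
  have haO : a ∈ Om := mem_Om.2 ha
  have ha1 : ‖a‖ < 1 := Om_lt haO
  have ha2 : ‖a‖ ^ 2 < 1 / 2 := haO
  have hps : ∀ z ∈ Om, ps a z ∈ pseudoDisc a := fun z hz => ps_mem ha1 hz
  have hph : ∀ z ∈ pseudoDisc a, ph a z ∈ Om := fun z hz => ph_mem hz
  have h0 : (0 : ℂ) ∈ pseudoDisc a := by
    refine ⟨by simp, ?_⟩
    simpa using ha
  have nca : ‖conj a‖ < 1 := by rwa [RCLike.norm_conj]
  have np : ∀ {z : ℂ}, ‖z‖ < 1 → 1 + conj a * z ≠ 0 := fun hz => ne_of_norm_lt' (norm_mul_lt nca hz)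
  have np' : ∀ {z : ℂ}, ‖z‖ < 1 → 1 + a * conj z ≠ 0 := fun hz =>
    ne_of_norm_lt' (norm_mul_lt ha1 (by rwa [RCLike.norm_conj]))
  have nm : ∀ {z : ℂ}, ‖z‖ < 1 → 1 - conj a * z ≠ 0 := fun hz => ne_of_norm_lt (norm_mul_lt nca hz)
  have nm' : ∀ {z : ℂ}, ‖z‖ < 1 → 1 - a * conj z ≠ 0 := fun hz =>
    ne_of_norm_lt (norm_mul_lt ha1 (by rwa [RCLike.norm_conj]))
  have nx : ∀ {z w : ℂ}, ‖z‖ < 1 → ‖w‖ < 1 → 1 - z * conj w ≠ 0 := fun hz hw =>
    ne_of_norm_lt (norm_mul_lt hz (by rwa [RCLike.norm_conj]))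
  set t : ℂ := 1 - conj a * a with ht
  have ht0 : t ≠ 0 := nm ha1
  have htc : conj t = t := by rw [ht]; simp [mul_comm]
  -- the pulled back certificate
  set E : ℂ → ℂ := fun z => t / (1 + conj a * z) ^ 2 with hE
  set st : ℂ → ℂ → ℂ := fun z w => s (ps a z) (ps a w) * (E z * conj (E w)) with hst
  have hEc : ∀ w, conj (E w) = t / (1 + a * conj w) ^ 2 := by
    intro w
    simp only [hE, map_div₀, htc, map_pow, map_add, map_one, map_mul, Complex.conj_conj]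
  have hE0 : ∀ z ∈ Om, E z ≠ 0 := fun z hz => div_ne_zero ht0 (pow_ne_zero 2 (np (Om_lt hz)))
  have hEc0 : ∀ z ∈ Om, conj (E z) ≠ 0 := fun z hz => by
    rw [hEc]; exact div_ne_zero ht0 (pow_ne_zero 2 (np' (Om_lt hz)))
  have hstc : Pool.Agent.H159.MinC.IsCertificate Om Pool.Agent.H159.MinC.bergman st := by
    refine ⟨⟨?_, ?_, ?_⟩, ?_⟩
    · exact Pool.Agent.H159.MinC.IsKernelOn.mul (comp hsk (ps a) hps) (kernel_rankOne E)
    · intro z hz w hw
      exact mul_ne_zero (hsne _ (hps z hz) _ (hps w hw)) (mul_ne_zero (hE0 z hz) (hEc0 w hw))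
    · refine ⟨fun z => δ (ps a z) * E z, fun z w => F (ps a z) (ps a w),
        fun z hz => mul_ne_zero (hδ _ (hps z hz)) (hE0 z hz), comp hF (ps a) hps,
        fun z hz => hF1 _ (hps z hz), fun z hz w hw => ?_⟩
      simp only [hst]
      rw [hsF _ (hps z hz) _ (hps w hw), map_mul]
      ring
    · refine ⟨fun z w => h (ps a z) (ps a w), comp hh (ps a) hps, fun z hz w hw => ?_⟩
      simp only [hst]
      rw [← mul_assoc, ← hfac _ (hps z hz) _ (hps w hw), Pool.Agent.H159.MinC.bergman, bergman,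
        one_sub_ps ha1 (Om_lt hz) (Om_lt hw), hEc]
      simp only [hE]
      have n1 := np (Om_lt hz)
      have n2 := np' (Om_lt hw)
      have n3 := nx (Om_lt hz) (Om_lt hw)
      have n1' : 1 + z * conj a ≠ 0 := by rwa [mul_comm z]
      have n2' : 1 + conj w * a ≠ 0 := by rwa [mul_comm (conj w)]
      have n3' : 1 - conj w * z ≠ 0 := by rwa [mul_comm (conj w)]
      rw [← ht]
      field_simp
  have hker : KO (pseudoDisc a) fun z w => st (ph a z) (ph a w) /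
      (1 / (1 - 2 * ph a z * conj (ph a w))) := comp (K := fun z w => st z w /
        (1 / (1 - 2 * z * conj w))) (Pool.Agent.H159.MinC.minimum hstc) (ph a) hph
  -- `s (1 - 2 φ φ*)` is a kernel
  have hps2 : ∀ z ∈ pseudoDisc a, ps a (ph a z) = z := by
    intro z hz
    have n1 := nm hz.1
    rw [ps, ph]
    have e : 1 + conj a * ((z - a) / (1 - conj a * z)) = t / (1 - conj a * z) := by
      rw [ht]; field_simp; ring
    rw [e, div_add' _ _ _ n1, div_div_div_cancel_right₀ n1, div_eq_iff ht0, ht]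
    ring
  have hE2 : ∀ z ∈ pseudoDisc a, E (ph a z) = (1 - conj a * z) ^ 2 / t := by
    intro z hz
    have n1 := nm hz.1
    have e : 1 + conj a * ((z - a) / (1 - conj a * z)) = t / (1 - conj a * z) := by
      rw [ht]; field_simp; ring
    simp only [hE, ph]
    rw [e]
    field_simp
  have hE2c : ∀ z ∈ pseudoDisc a, conj (E (ph a z)) = (1 - a * conj z) ^ 2 / t := by
    intro z hz
    rw [hE2 z hz]
    simp only [map_div₀, htc, map_pow, map_sub, map_one, map_mul, Complex.conj_conj]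
  have hk2 : KO (pseudoDisc a) fun z w => s z w * (1 - 2 * (ph a z * conj (ph a w))) := by
    have hdy := kernel_rankOne (Ω := pseudoDisc a) fun z => t / (1 - conj a * z) ^ 2
    refine Pool.Agent.H159.MinC.IsKernelOn.congr
      (Pool.Agent.H159.MinC.IsKernelOn.mul hker hdy) fun z hz w hw => ?_
    have n1 := nm hz.1
    have n2 := nm' hw.1
    simp only [hst]
    rw [hps2 z hz, hps2 w hw, hE2 z hz, hE2c w hw]
    simp only [map_div₀, htc, map_pow, map_sub, map_one, map_mul, Complex.conj_conj, one_div,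
      div_inv_eq_mul]
    field_simp
  -- the function `G`
  have hsq2 : ((Real.sqrt 2 : ℝ) : ℂ) * ((Real.sqrt 2 : ℝ) : ℂ) = 2 := by
    rw [← Complex.ofReal_mul, Real.mul_self_sqrt (by norm_num)]; norm_num
  set G : ℂ → ℂ := fun z => (Real.sqrt 2 : ℝ) * (ph a z + a) / (1 + 2 * (conj a * ph a z)) with hG
  have hle : ∀ z ∈ pseudoDisc a, ‖conj a * ph a z‖ < 1 / 2 := by
    intro z hz
    rw [norm_mul, RCLike.norm_conj]
    have h1 : ‖ph a z‖ ^ 2 < 1 / 2 := hph z hz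
    nlinarith [sq_nonneg (‖a‖ - ‖ph a z‖)]
  have n2 : ∀ z ∈ pseudoDisc a, 1 + 2 * (conj a * ph a z) ≠ 0 := by
    intro z hz
    refine ne_of_norm_lt' ?_
    rw [norm_mul, Complex.norm_ofNat]
    have := hle z hz
    linarith
  have n2' : ∀ z ∈ pseudoDisc a, 1 + 2 * (a * conj (ph a z)) ≠ 0 := by
    intro z hz h
    apply n2 z hz
    have := congrArg conj h
    simpa [map_ofNat] using this
  set q : ℂ := 1 - 2 * (conj a * a) with hq
  have hGG : ∀ z ∈ pseudoDisc a, ∀ w ∈ pseudoDisc a, 1 - G z * conj (G w) =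
      q * (1 - 2 * (ph a z * conj (ph a w))) / ((1 + 2 * (conj a * ph a z)) *
        (1 + 2 * (a * conj (ph a w)))) := by
    intro z hz w hw
    have m1 := n2 z hz
    have m2 := n2' w hw
    simp only [hG, map_div₀, map_add, map_mul, map_one, Complex.conj_conj, Complex.conj_ofReal,
      Complex.conj_ofNat]
    rw [div_mul_div_comm, show ((Real.sqrt 2 : ℝ) : ℂ) * (ph a z + a) *
      (((Real.sqrt 2 : ℝ) : ℂ) * (conj (ph a w) + conj a)) =
        2 * ((ph a z + a) * (conj (ph a w) + conj a)) by rw [← hsq2]; ring,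
      eq_div_iff (mul_ne_zero m1 m2), sub_mul, div_mul_cancel₀ _ (mul_ne_zero m1 m2), hq]
    ring
  have hqr : q = ((1 - 2 * ‖a‖ ^ 2 : ℝ) : ℂ) := by
    have : conj a * a = ((‖a‖ ^ 2 : ℝ) : ℂ) := by
      rw [mul_comm, ← Complex.normSq_eq_norm_sq, ← Complex.mul_conj]
    rw [hq, this]; push_cast; ring
  have hq0 : q ≠ 0 := by
    rw [hqr]
    have : (1 - 2 * ‖a‖ ^ 2 : ℝ) ≠ 0 := by linarith
    exact_mod_cast this
  have hG1 : ∀ z ∈ pseudoDisc a, ‖G z‖ < 1 := by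
    intro z hz
    have e := hGG z hz z hz
    have e1 : (1 + 2 * (conj a * ph a z)) * (1 + 2 * (a * conj (ph a z))) =
        ((‖1 + 2 * (conj a * ph a z)‖ ^ 2 : ℝ) : ℂ) := by
      rw [← Complex.normSq_eq_norm_sq, ← Complex.mul_conj]
      simp only [map_add, map_mul, map_one, Complex.conj_conj, Complex.conj_ofNat]
    have e2 : G z * conj (G z) = ((‖G z‖ ^ 2 : ℝ) : ℂ) := by
      rw [← Complex.normSq_eq_norm_sq, ← Complex.mul_conj]
    have e3 : ph a z * conj (ph a z) = ((‖ph a z‖ ^ 2 : ℝ) : ℂ) := by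
      rw [← Complex.normSq_eq_norm_sq, ← Complex.mul_conj]
    rw [e1, e2, e3, hqr] at e
    have e5 : (1 : ℝ) - ‖G z‖ ^ 2 = (1 - 2 * ‖a‖ ^ 2) * (1 - 2 * ‖ph a z‖ ^ 2) /
        ‖1 + 2 * (conj a * ph a z)‖ ^ 2 := by
      exact_mod_cast e
    have h1 : 0 < (1 - 2 * ‖a‖ ^ 2) * (1 - 2 * ‖ph a z‖ ^ 2) /
        ‖1 + 2 * (conj a * ph a z)‖ ^ 2 := by
      have h2 : 0 < ‖1 + 2 * (conj a * ph a z)‖ := norm_pos_iff.2 (n2 z hz)
      have h3 : 0 < 1 - 2 * ‖a‖ ^ 2 := by linarith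
      have h5 : ‖ph a z‖ ^ 2 < 1 / 2 := hph z hz
      have h4 : 0 < 1 - 2 * ‖ph a z‖ ^ 2 := by linarith
      positivity
    rw [← e5] at h1
    nlinarith [norm_nonneg (G z)]
  have hGne : ∀ z ∈ pseudoDisc a, ∀ w ∈ pseudoDisc a, 1 - G z * conj (G w) ≠ 0 := fun z hz w hw =>
    nx (hG1 z hz) (hG1 w hw)
  have hGk : KO (pseudoDisc a) fun z w => G z * conj (G w) := kernel_rankOne G
  have hGd : ∀ z ∈ pseudoDisc a, (G z * conj (G z)) < 1 := by
    intro z hz
    have e2 : G z * conj (G z) = ((‖G z‖ ^ 2 : ℝ) : ℂ) := by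
      rw [← Complex.normSq_eq_norm_sq, ← Complex.mul_conj]
    rw [e2, ← Complex.ofReal_one, Complex.real_lt_real]
    have := hG1 z hz
    nlinarith [norm_nonneg (G z)]
  have hGd' : ∀ z ∈ pseudoDisc a, (G z * conj (G z)).re < 1 := fun z hz =>
    (Complex.lt_def.1 (hGd z hz)).1
  refine ⟨G, hG1, ⟨?_, ?_, ?_⟩, ?_⟩
  · change KO (pseudoDisc a) fun z w => 1 / (1 - G z * conj (G w))
    refine Pool.Agent.H159.MinC.IsKernelOn.congr (Pool.Agent.H159.MinC.kernel_geom hGk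
      (Pool.Agent.H159.MinC.IsKernelOn.norm_lt_one hGk hGd')) fun z _ w _ => ?_
    rw [one_div]
  · exact fun z hz w hw => one_div_ne_zero (hGne z hz w hw)
  · refine ⟨fun _ => 1, fun z w => G z * conj (G w), fun _ _ => one_ne_zero, hGk, hGd,
      fun z _ w _ => ?_⟩
    simp
  · -- the kernel `h_0 ∘ φ`, normalized
    set h0k : ℂ → ℂ → ℂ := fun z w => (z * conj w) ^ 2 * ((1 - z * conj w)⁻¹ * (1 - z * conj w)⁻¹)
      with hh0k
    have hk0 : KO Om h0k := Pool.Agent.H159.MinC.IsKernelOn.mul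
      (Pool.Agent.H159.MinC.IsKernelOn.pow kernel_x 2)
      (Pool.Agent.H159.MinC.IsKernelOn.mul kernel_szego kernel_szego)
    set K : ℂ → ℂ → ℂ := fun z w => h0k (ph a z) (ph a w) with hK
    have hKk : KO (pseudoDisc a) K := comp hk0 (ph a) hph
    have hrelK : ∀ z ∈ pseudoDisc a, ∀ w ∈ pseudoDisc a, 1 - K z w =
        (1 - 2 * (ph a z * conj (ph a w))) / (1 - ph a z * conj (ph a w)) ^ 2 := by
      intro z hz w hw
      have n1 := nx (Om_lt (hph z hz)) (Om_lt (hph w hw))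
      simp only [hK, hh0k]
      field_simp
      ring
    have hK1 : ∀ z ∈ pseudoDisc a, (K z z).re < 1 := by
      intro z hz
      have e := hrelK z hz z hz
      have e3 : ph a z * conj (ph a z) = ((‖ph a z‖ ^ 2 : ℝ) : ℂ) := by
        rw [← Complex.normSq_eq_norm_sq, ← Complex.mul_conj]
      rw [e3] at e
      have e4 : (1 - 2 * ((‖ph a z‖ ^ 2 : ℝ) : ℂ)) / (1 - ((‖ph a z‖ ^ 2 : ℝ) : ℂ)) ^ 2 =
          (((1 - 2 * ‖ph a z‖ ^ 2) / (1 - ‖ph a z‖ ^ 2) ^ 2 : ℝ) : ℂ) := by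
        push_cast; ring
      rw [e4] at e
      have e5 := congrArg Complex.re e
      rw [Complex.ofReal_re, Complex.sub_re, Complex.one_re] at e5
      have h5 : ‖ph a z‖ ^ 2 < 1 / 2 := hph z hz
      have h6 : 0 < (1 - 2 * ‖ph a z‖ ^ 2) / (1 - ‖ph a z‖ ^ 2) ^ 2 := by
        have : 0 < 1 - 2 * ‖ph a z‖ ^ 2 := by linarith
        have : 0 < 1 - ‖ph a z‖ ^ 2 := by linarith
        positivity
      linarith
    have hnorm := kernel_norm hKk hK1 h0
    refine ⟨fun z w => 1 - (1 - K z w) * (1 - K 0 0) / ((1 - K z 0) * (1 - K 0 w)),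
      fun z w => s z w * (1 - G z * conj (G w)) * g z w, hnorm, ?_, ?_, ?_⟩
    · have hdy := kernel_rankOne (Ω := pseudoDisc a) fun z => (1 + 2 * (conj a * ph a z))⁻¹
      have hc : KO (pseudoDisc a) fun _ _ => ((1 - 2 * ‖a‖ ^ 2 : ℝ) : ℂ) :=
        kernel_const (by linarith)
      change KO (pseudoDisc a) fun z w => s z w * (1 - G z * conj (G w)) * g z w
      refine Pool.Agent.H159.MinC.IsKernelOn.congr (Pool.Agent.H159.MinC.IsKernelOn.mul
        (Pool.Agent.H159.MinC.IsKernelOn.mul (Pool.Agent.H159.MinC.IsKernelOn.mul hc hdy) hk2) hg)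
        fun z hz w hw => ?_
      have m1 := n2 z hz
      have m2 := n2' w hw
      rw [hGG z hz w hw, ← hqr]
      simp only [map_inv₀, map_add, map_mul, map_one, Complex.conj_conj, Complex.conj_ofNat]
      field_simp
    · intro z hz w hw
      have r1 := hrelK z hz w hw
      have r2 := hrelK z hz 0 h0
      have r3 := hrelK 0 h0 w hw
      have r4 := hrelK 0 h0 0 h0
      have hp0 : ph a 0 = -a := by simp [ph]
      rw [one_sub_ph ha1 hz.1 hw.1] at r1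
      rw [one_sub_ph ha1 hz.1 (by simp)] at r2
      rw [one_sub_ph ha1 (by simp) hw.1] at r3
      rw [one_sub_ph ha1 (by simp) (by simp)] at r4
      beta_reduce
      rw [sub_sub_cancel, r1, r2, r3, r4, hGG z hz w hw, hp0, bergman]
      simp only [map_neg, map_zero, mul_zero, sub_zero, zero_mul, mul_one, one_mul]
      have m1 := n2 z hz
      have m2 := n2' w hw
      have m3 := nm hz.1
      have m4 := nm' hw.1
      have m5 := nx hz.1 hw.1
      have m6 := hGne z hz w hw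
      have m7 : 1 - 2 * (ph a z * conj (ph a w)) ≠ 0 := by
        intro h7
        rw [hGG z hz w hw, h7] at m6
        simp at m6
      rw [← ht]
      have e1 : 1 - 2 * (ph a z * -conj a) = 1 + 2 * (conj a * ph a z) := by ring
      have e2 : 1 - 2 * (-a * conj (ph a w)) = 1 + 2 * (a * conj (ph a w)) := by ring
      have e3 : 1 - 2 * (-a * -conj a) = q := by rw [hq]; ring
      have m1' : 1 + 2 * ph a z * conj a ≠ 0 := by convert m1 using 1; ring
      have m2' : 1 + 2 * conj (ph a w) * a ≠ 0 := by convert m2 using 1; ring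
      have m3' : 1 - z * conj a ≠ 0 := by convert m3 using 1; ring
      have m4' : 1 - conj w * a ≠ 0 := by convert m4 using 1; ring
      have m7' : 1 - 2 * ph a z * conj (ph a w) ≠ 0 := by convert m7 using 1; ring
      rw [e1, e2, e3]
      field_simp
    · intro z hz w hw
      have := hGne z hz w hw
      rw [hl z hz w hw]
      field_simp

end Pool.Agent.Results.MP_86f1d3_an.PseudohyperbolicDiscs
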